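import Pool.Agent.GT.StmtsE

/-!
# Squad GT, block E, row E_EVH: specialisation of the points of the generic fibre
-/

set_option autoImplicit false

namespace Pool.Agent.GT.OF.H29

open Polynomial Pool.Agent.NJ Pool.Agent.GT.D Pool.Agent.GT.OF Filter

noncomputable section

/-! ### Evaluation of rational functions as a ring homomorphism into germs -/

/-- the value at `t` -/
def ev (f : RatFunc ℚ) (t : ℚ) : ℚ := RatFunc.eval (RingHom.id ℚ) t f

theorem poly_ne {p : ℚ[X]} (hp : p ≠ 0) : ∀ᶠ t : ℚ in cofinite, p.eval t ≠ 0 := by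
  have h : (↑p.roots.toFinset : Set ℚ).Finite := p.roots.toFinset.finite_toSet
  refine (h.eventually_cofinite_notMem).mono ?_
  intro t ht h0
  exact ht (by simpa [hp] using h0)

theorem den_ne (f : RatFunc ℚ) :
    ∀ᶠ t : ℚ in cofinite, Polynomial.eval₂ (RingHom.id ℚ) t f.denom ≠ 0 := by
  refine (poly_ne (RatFunc.denom_ne_zero f)).mono ?_
  intro t ht
  rwa [Polynomial.eval₂_id]

/-- the germs at the cofinite filter -/
abbrev Gm : Type := Filter.Germ (cofinite : Filter ℚ) ℚ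

/-- the ring homomorphism -/
def Phi : RatFunc ℚ →+* Gm where
  toFun f := ((ev f : ℚ → ℚ) : Gm)
  map_one' := by
    have h : ev 1 = (1 : ℚ → ℚ) := by
      funext t
      exact RatFunc.eval_one _ _
    rw [h]
    rfl
  map_zero' := by
    have h : ev 0 = (0 : ℚ → ℚ) := by
      funext t
      exact RatFunc.eval_zero _ _
    rw [h]
    rfl
  map_mul' f g := by
    show ((ev (f * g) : ℚ → ℚ) : Gm) = ((ev f : ℚ → ℚ) : Gm) * ((ev g : ℚ → ℚ) : Gm)
    rw [← Filter.Germ.coe_mul, Filter.Germ.coe_eq]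
    filter_upwards [den_ne f, den_ne g] with t hf hg
    exact RatFunc.eval_mul _ _ hf hg
  map_add' f g := by
    show ((ev (f + g) : ℚ → ℚ) : Gm) = ((ev f : ℚ → ℚ) : Gm) + ((ev g : ℚ → ℚ) : Gm)
    rw [← Filter.Germ.coe_add, Filter.Germ.coe_eq]
    filter_upwards [den_ne f, den_ne g] with t hf hg
    exact RatFunc.eval_add _ _ hf hg

theorem Phi_apply (f : RatFunc ℚ) : Phi f = ((ev f : ℚ → ℚ) : Gm) := rfl

theorem ev_poly (p : ℚ[X]) (t : ℚ) : ev (algebraMap ℚ[X] (RatFunc ℚ) p) t = p.eval t := by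
  unfold ev
  rw [RatFunc.eval_algebraMap]
  simp

theorem ev_ne {f : RatFunc ℚ} (hf : f ≠ 0) : ∀ᶠ t : ℚ in cofinite, ev f t ≠ 0 := by
  have h : Phi f * Phi f⁻¹ = Phi 1 := by
    rw [← map_mul, mul_inv_cancel₀ hf]
  rw [Phi_apply, Phi_apply, Phi_apply, ← Filter.Germ.coe_mul, Filter.Germ.coe_eq] at h
  filter_upwards [h] with t ht h0
  have h1 : ev f t * ev f⁻¹ t = ev 1 t := ht
  rw [h0, zero_mul] at h1
  have h2 : ev 1 t = 1 := RatFunc.eval_one _ _
  rw [h2] at h1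
  exact zero_ne_one h1

theorem ev_add (f g : RatFunc ℚ) : ∀ᶠ t : ℚ in cofinite, ev (f + g) t = ev f t + ev g t := by
  filter_upwards [den_ne f, den_ne g] with t hf hg
  exact RatFunc.eval_add _ _ hf hg

theorem ev_mul (f g : RatFunc ℚ) : ∀ᶠ t : ℚ in cofinite, ev (f * g) t = ev f t * ev g t := by
  filter_upwards [den_ne f, den_ne g] with t hf hg
  exact RatFunc.eval_mul _ _ hf hg

/-- the coefficients -/
theorem ev_coef (p : ℚ[X]) : (ev (algebraMap ℚ[X] (RatFunc ℚ) p) : ℚ → ℚ) = fun t => p.eval t :=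
  funext (ev_poly p)

/-! ### Points over a field -/

section
variable {F : Type} [Field F]

/-- `P = (x, y)` -/
def IsPt {W : WeierstrassCurve F} (P : W.toAffine.Point) (x y : F) : Prop :=
  ∃ h : W.toAffine.Nonsingular x y, P = WeierstrassCurve.Affine.Point.some x y h

open Classical in
/-- the sum -/
def pl {W : WeierstrassCurve F} (P Q : W.toAffine.Point) : W.toAffine.Point := P + Q

open Classical in
/-- the multiples -/
def ns {W : WeierstrassCurve F} (n : ℕ) (P : W.toAffine.Point) : W.toAffine.Point := n • P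

open Classical in
theorem ns_zero {W : WeierstrassCurve F} (P : W.toAffine.Point) : ns 0 P = 0 := zero_smul ℕ P

open Classical in
theorem ns_succ {W : WeierstrassCurve F} (n : ℕ) (P : W.toAffine.Point) :
    ns (n + 1) P = pl (ns n P) P := succ_nsmul P n

open Classical in
theorem pl_zero {W : WeierstrassCurve F} (P : W.toAffine.Point) : pl P 0 = P := add_zero P

open Classical in
theorem zero_pl {W : WeierstrassCurve F} (P : W.toAffine.Point) : pl 0 P = P := zero_add P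

open Classical in
theorem expo_iffE {W : WeierstrassCurve F} {n : ℕ} :
    Expo W n ↔ ∀ Q : W.toAffine.Point, ns n Q = 0 := Iff.rfl

theorem IsPt.ne {W : WeierstrassCurve F} {P : W.toAffine.Point} {x y : F} (h : IsPt P x y) :
    P ≠ 0 := by
  obtain ⟨h, rfl⟩ := h
  exact WeierstrassCurve.Affine.Point.some_ne_zero h

theorem IsPt.eqn {W : WeierstrassCurve F} {P : W.toAffine.Point} {x y : F} (h : IsPt P x y) :
    y ^ 2 + W.a₁ * x * y + W.a₃ * y = x ^ 3 + W.a₂ * x ^ 2 + W.a₄ * x + W.a₆ := by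
  obtain ⟨h, -⟩ := h
  exact (WeierstrassCurve.Affine.equation_iff _ _).mp h.1

theorem exists_pt {W : WeierstrassCurve F} {x y : F} (hD : W.Δ ≠ 0)
    (h : y ^ 2 + W.a₁ * x * y + W.a₃ * y = x ^ 3 + W.a₂ * x ^ 2 + W.a₄ * x + W.a₆) :
    ∃ P : W.toAffine.Point, IsPt P x y :=
  ⟨_, (WeierstrassCurve.Affine.equation_iff_nonsingular_of_Δ_ne_zero hD).mp
    ((WeierstrassCurve.Affine.equation_iff _ _).mpr h), rfl⟩

open Classical in
theorem pl_opp {W : WeierstrassCurve F} {P Q : W.toAffine.Point} {x₁ y₁ x₂ y₂ : F}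
    (hP : IsPt P x₁ y₁) (hQ : IsPt Q x₂ y₂) (hx : x₁ = x₂)
    (hy : y₁ + y₂ + W.a₁ * x₂ + W.a₃ = 0) : pl P Q = 0 := by
  obtain ⟨h1, rfl⟩ := hP
  obtain ⟨h2, rfl⟩ := hQ
  refine WeierstrassCurve.Affine.Point.add_of_Y_eq hx ?_
  show y₁ = -y₂ - W.a₁ * x₂ - W.a₃
  linear_combination hy

open Classical in
theorem pl_some {W : WeierstrassCurve F} {P Q : W.toAffine.Point} {x₁ y₁ x₂ y₂ L : F}
    (hP : IsPt P x₁ y₁) (hQ : IsPt Q x₂ y₂)
    (h : (x₁ - x₂ ≠ 0 ∧ L * (x₁ - x₂) = y₁ - y₂) ∨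
      (x₁ = x₂ ∧ y₁ + y₂ + W.a₁ * x₂ + W.a₃ ≠ 0 ∧
        L * (2 * y₁ + W.a₁ * x₁ + W.a₃) = 3 * x₁ ^ 2 + 2 * W.a₂ * x₁ + W.a₄ - W.a₁ * y₁)) :
    IsPt (pl P Q) (L ^ 2 + W.a₁ * L - W.a₂ - x₁ - x₂)
      (-(L * ((L ^ 2 + W.a₁ * L - W.a₂ - x₁ - x₂) - x₁) + y₁) -
        W.a₁ * (L ^ 2 + W.a₁ * L - W.a₂ - x₁ - x₂) - W.a₃) := by
  obtain ⟨h1, rfl⟩ := hP
  obtain ⟨h2, rfl⟩ := hQ
  have hxy : ¬(x₁ = x₂ ∧ y₁ = W.toAffine.negY x₂ y₂) := by
    rintro ⟨hx, hy⟩
    have hy' : y₁ = -y₂ - W.a₁ * x₂ - W.a₃ := hy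
    rcases h with ⟨a, -⟩ | ⟨-, a, -⟩
    · exact a (by rw [hx, sub_self])
    · exact a (by rw [hy']; ring)
  have hL : W.toAffine.slope x₁ x₂ y₁ y₂ = L := by
    rcases h with ⟨a, b⟩ | ⟨a, b, c⟩
    · rw [WeierstrassCurve.Affine.slope_of_X_ne (sub_ne_zero.mp a), div_eq_iff a]
      exact b.symm
    · have hy : y₁ ≠ W.toAffine.negY x₂ y₂ := fun hy => hxy ⟨a, hy⟩
      have h12 : y₁ = y₂ := WeierstrassCurve.Affine.Y_eq_of_Y_ne h1.1 h2.1 a hy
      have e1 : y₁ - W.toAffine.negY x₁ y₁ = 2 * y₁ + W.a₁ * x₁ + W.a₃ := by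
        show y₁ - (-y₁ - W.a₁ * x₁ - W.a₃) = _
        ring
      have e2 : 2 * y₁ + W.a₁ * x₁ + W.a₃ ≠ 0 := by
        intro h0
        apply b
        rw [← h12, ← a]
        linear_combination h0
      rw [WeierstrassCurve.Affine.slope_of_Y_ne a hy, e1, div_eq_iff e2]
      exact c.symm
  have h3 := WeierstrassCurve.Affine.Point.add_some hxy (h₁ := h1) (h₂ := h2)
  refine ⟨?_, ?_⟩
  · have h4 := WeierstrassCurve.Affine.nonsingular_add h1 h2 hxy
    rw [hL] at h4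
    exact h4
  · subst hL
    exact h3

end

/-! ### The specialisation -/

theorem pow_coe (f : ℚ → ℚ) (n : ℕ) : ((f : ℚ → ℚ) : Gm) ^ n = ((f ^ n : ℚ → ℚ) : Gm) := rfl

/-- the curve at `t` -/
theorem fib_a₁ (E : WeierstrassCurve ℚ[X]) (t : ℚ) : (fib E t).a₁ = ev (gen E).a₁ t :=
  (ev_poly E.a₁ t).symm

theorem fib_a₂ (E : WeierstrassCurve ℚ[X]) (t : ℚ) : (fib E t).a₂ = ev (gen E).a₂ t :=
  (ev_poly E.a₂ t).symm

theorem fib_a₃ (E : WeierstrassCurve ℚ[X]) (t : ℚ) : (fib E t).a₃ = ev (gen E).a₃ t :=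
  (ev_poly E.a₃ t).symm

theorem fib_a₄ (E : WeierstrassCurve ℚ[X]) (t : ℚ) : (fib E t).a₄ = ev (gen E).a₄ t :=
  (ev_poly E.a₄ t).symm

theorem fib_a₆ (E : WeierstrassCurve ℚ[X]) (t : ℚ) : (fib E t).a₆ = ev (gen E).a₆ t :=
  (ev_poly E.a₆ t).symm

theorem fib_Δ (E : WeierstrassCurve ℚ[X]) (t : ℚ) : (fib E t).Δ = E.Δ.eval t := by
  unfold fib
  rw [WeierstrassCurve.map_Δ, coe_evalRingHom]

theorem good (E : WeierstrassCurve ℚ[X]) (hE : E.Δ ≠ 0) :
    ∀ᶠ t : ℚ in cofinite, (fib E t).Δ ≠ 0 := by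
  refine (poly_ne hE).mono fun t ht => ?_
  rw [fib_Δ]
  exact ht

/-- the relation between a point of the generic fibre and its specialisations -/
def Rel (E : WeierstrassCurve ℚ[X]) (P : (gen E).toAffine.Point)
    (Q : ∀ t : ℚ, (fib E t).toAffine.Point) : Prop :=
  (P = 0 ∧ ∀ᶠ t : ℚ in cofinite, Q t = 0) ∨
    ∃ x y : RatFunc ℚ, IsPt P x y ∧ ∀ᶠ t : ℚ in cofinite, IsPt (Q t) (ev x t) (ev y t)

theorem rel_exists (E : WeierstrassCurve ℚ[X]) (hE : E.Δ ≠ 0) (P : (gen E).toAffine.Point) :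
    ∃ Q : ∀ t : ℚ, (fib E t).toAffine.Point, Rel E P Q := by
  classical
  rcases P with _ | ⟨x, y, h⟩
  · exact ⟨fun t => 0, Or.inl ⟨rfl, Eventually.of_forall fun t => rfl⟩⟩
  have hP : IsPt (WeierstrassCurve.Affine.Point.some x y h : (gen E).toAffine.Point) x y :=
    ⟨h, rfl⟩
  have h1 := congrArg Phi hP.eqn
  simp only [map_add, map_mul, map_pow, Phi_apply] at h1
  norm_cast at h1
  have h2 : ∀ᶠ t : ℚ in cofinite,
      ∃ Q : (fib E t).toAffine.Point, IsPt Q (ev x t) (ev y t) := by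
    filter_upwards [h1, good E hE] with t ht hD
    refine exists_pt hD ?_
    rw [fib_a₁, fib_a₂, fib_a₃, fib_a₄, fib_a₆]
    exact ht
  refine ⟨fun t => if h : ∃ Q : (fib E t).toAffine.Point, IsPt Q (ev x t) (ev y t) then h.choose
    else 0, Or.inr ⟨x, y, hP, ?_⟩⟩
  filter_upwards [h2] with t ht
  rw [dif_pos ht]
  exact ht.choose_spec

theorem ev_x3 (a b x x' L : RatFunc ℚ) : ∀ᶠ t : ℚ in cofinite,
    ev (L ^ 2 + a * L - b - x - x') t =
      (ev L t) ^ 2 + ev a t * ev L t - ev b t - ev x t - ev x' t := by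
  have h : Phi (L ^ 2 + a * L - b - x - x') =
      Phi L ^ 2 + Phi a * Phi L - Phi b - Phi x - Phi x' := by
    simp only [map_add, map_sub, map_mul, map_pow]
  simp only [Phi_apply] at h
  norm_cast at h

theorem ev_y3 (a c x y z L : RatFunc ℚ) : ∀ᶠ t : ℚ in cofinite,
    ev (-(L * (z - x) + y) - a * z - c) t =
      -(ev L t * (ev z t - ev x t) + ev y t) - ev a t * ev z t - ev c t := by
  have h : Phi (-(L * (z - x) + y) - a * z - c) =
      -(Phi L * (Phi z - Phi x) + Phi y) - Phi a * Phi z - Phi c := by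
    simp only [map_add, map_sub, map_mul, map_neg]
  simp only [Phi_apply] at h
  norm_cast at h

theorem rel_pl {E : WeierstrassCurve ℚ[X]} {P P' : (gen E).toAffine.Point}
    {Q Q' : ∀ t : ℚ, (fib E t).toAffine.Point} (h : Rel E P Q) (h' : Rel E P' Q') :
    Rel E (pl P P') fun t => pl (Q t) (Q' t) := by
  classical
  rcases h with ⟨rfl, h⟩ | ⟨x, y, hP, h⟩
  · rcases h' with ⟨rfl, h'⟩ | ⟨x', y', hP', h'⟩
    · refine Or.inl ⟨pl_zero 0, ?_⟩
      filter_upwards [h, h'] with t a b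
      rw [a, b, pl_zero]
    · refine Or.inr ⟨x', y', by rwa [zero_pl], ?_⟩
      filter_upwards [h, h'] with t a b
      rwa [a, zero_pl]
  rcases h' with ⟨rfl, h'⟩ | ⟨x', y', hP', h'⟩
  · refine Or.inr ⟨x, y, by rwa [pl_zero], ?_⟩
    filter_upwards [h, h'] with t a b
    rwa [b, pl_zero]
  by_cases hx : x = x'
  · by_cases hy : y + y' + (gen E).a₁ * x' + (gen E).a₃ = 0
    · refine Or.inl ⟨pl_opp hP hP' hx hy, ?_⟩
      have h1 := congrArg Phi hy
      rw [map_zero] at h1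
      simp only [map_add, map_mul, Phi_apply] at h1
      norm_cast at h1
      filter_upwards [h, h', h1] with t a b c
      refine pl_opp a b (by rw [hx]) ?_
      rw [fib_a₁, fib_a₃]
      exact c
    · have hyy : y = y' := by
        obtain ⟨n1, -⟩ := hP
        obtain ⟨n2, -⟩ := hP'
        refine WeierstrassCurve.Affine.Y_eq_of_Y_ne n1.1 n2.1 hx ?_
        intro h0
        have h0' : y = -y' - (gen E).a₁ * x' - (gen E).a₃ := h0
        exact hy (by rw [h0']; ring)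
      have h2 : y + y + (gen E).a₁ * x + (gen E).a₃ ≠ 0 := by
        intro h0
        apply hy
        rw [← hyy, ← hx]
        exact h0
      obtain ⟨L, hL⟩ : ∃ L : RatFunc ℚ, L * (2 * y + (gen E).a₁ * x + (gen E).a₃) =
          3 * x ^ 2 + 2 * (gen E).a₂ * x + (gen E).a₄ - (gen E).a₁ * y := by
        refine ⟨_, div_mul_cancel₀ _ ?_⟩
        rw [two_mul]
        exact h2
      have hne := ev_ne hy
      have e1 := ev_add (y + y' + (gen E).a₁ * x') (gen E).a₃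
      have e2 := ev_add (y + y') ((gen E).a₁ * x')
      have e3 := ev_add y y'
      have e4 := ev_mul (gen E).a₁ x'
      have hL1 := congrArg Phi hL
      simp only [map_add, map_sub, map_mul, map_pow, map_ofNat, Phi_apply] at hL1
      rw [← Filter.Germ.coe_ofNat, ← Filter.Germ.coe_ofNat] at hL1
      norm_cast at hL1
      refine Or.inr ⟨_, _, pl_some hP hP' (Or.inr ⟨hx, hy, hL⟩), ?_⟩
      filter_upwards [h, h', hne, e1, e2, e3, e4, hL1,
        ev_x3 (gen E).a₁ (gen E).a₂ x x' L,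
        ev_y3 (gen E).a₁ (gen E).a₃ x y (L ^ 2 + (gen E).a₁ * L - (gen E).a₂ - x - x') L] with
        t a b c d1 d2 d3 d4 f1 g1 g2
      rw [g2, g1, ← fib_a₁, ← fib_a₂, ← fib_a₃]
      refine pl_some a b (Or.inr ⟨by rw [hx], ?_, ?_⟩)
      · rw [d1, d2, d3, d4] at c
        rw [fib_a₁, fib_a₃]
        exact c
      · rw [fib_a₁, fib_a₃, fib_a₂, fib_a₄]
        exact f1
  · have hx0 : x - x' ≠ 0 := sub_ne_zero.mpr hx
    obtain ⟨L, hL⟩ : ∃ L : RatFunc ℚ, L * (x - x') = y - y' := ⟨_, div_mul_cancel₀ _ hx0⟩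
    have hne := ev_ne hx0
    have e1 : Phi (x - x') = Phi x - Phi x' := map_sub _ _ _
    simp only [Phi_apply] at e1
    norm_cast at e1
    have hL1 := congrArg Phi hL
    simp only [map_sub, map_mul, Phi_apply] at hL1
    norm_cast at hL1
    refine Or.inr ⟨_, _, pl_some hP hP' (Or.inl ⟨hx0, hL⟩), ?_⟩
    filter_upwards [h, h', hne, e1, hL1,
      ev_x3 (gen E).a₁ (gen E).a₂ x x' L,
      ev_y3 (gen E).a₁ (gen E).a₃ x y (L ^ 2 + (gen E).a₁ * L - (gen E).a₂ - x - x') L] with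
      t a b c d1 f1 g1 g2
    rw [g2, g1, ← fib_a₁, ← fib_a₂, ← fib_a₃]
    refine pl_some a b (Or.inl ⟨?_, f1⟩)
    rw [d1] at c
    exact c

theorem rel_ns {E : WeierstrassCurve ℚ[X]} {P : (gen E).toAffine.Point}
    {Q : ∀ t : ℚ, (fib E t).toAffine.Point} (h : Rel E P Q) (n : ℕ) :
    Rel E (ns n P) fun t => ns n (Q t) := by
  induction n with
  | zero => exact Or.inl ⟨ns_zero _, Eventually.of_forall fun t => ns_zero _⟩
  | succ n ih =>
    have h1 := rel_pl ih h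
    rw [ns_succ]
    have h2 : (fun t => ns (n + 1) (Q t)) = fun t => pl (ns n (Q t)) (Q t) := by
      funext t
      exact ns_succ n (Q t)
    rw [h2]
    exact h1

/-- row E_EVH -/
theorem evh : EvhStmt := by
  intro E n hE hinf
  rw [expo_iffE]
  intro P
  obtain ⟨Q, hQ⟩ := rel_exists E hE P
  rcases rel_ns hQ n with ⟨h, -⟩ | ⟨x, y, -, h⟩
  · exact h
  · exfalso
    have h1 : ∀ᶠ t : ℚ in cofinite, ¬((fib E t).Δ ≠ 0 ∧ Expo (fib E t) n) := by
      filter_upwards [h] with t ht h2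
      exact ht.ne (expo_iffE.mp h2.2 (Q t))
    rw [Filter.eventually_cofinite] at h1
    refine hinf ?_
    refine h1.subset ?_
    intro t ht h3
    exact h3 ht

end

end Pool.Agent.GT.OF.H29
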