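import Pool.Agent.GT.StmtsE

/-!
# Squad GT, block E, row E_TBD: a bound for the torsion
-/

set_option autoImplicit false

namespace Pool.Agent.GT.OF.H29

open Polynomial Pool.Agent.NJ Pool.Agent.GT.D Pool.Agent.GT.OF

noncomputable section

/-- integral rational numbers are `q`-adic integers -/
theorem lift {q : ℕ} [Fact q.Prime] {x : ℚ} (h : 0 ≤ padicValRat q x) :
    ∃ z : ℤ_[q], (z : ℚ_[q]) = (x : ℚ_[q]) := by
  have h1 : ‖(x : ℚ_[q])‖ ≤ 1 := by
    rw [Padic.norm_le_one_iff_val_nonneg, Padic.valuation_ratCast]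
    exact h
  exact ⟨⟨(x : ℚ_[q]), h1⟩, rfl⟩

/-- the algebra modulo `q` -/
theorem algmod {K : Type} [Field K] (h2 : (2 : K) ≠ 0) (r : K) (c : Fin 3 → K)
    (hc : c 0 ≠ c 1) (h12 : c 1 ≠ c 2) (h02 : c 0 ≠ c 2)
    (h : ∀ i : Fin 3, (r - c i) * (r - c i) - (c i - c (i + 1)) * (c i - c (i + 2)) = 0) :
    False := by
  have e0 : (r - c 0) * (r - c 0) - (c 0 - c 1) * (c 0 - c 2) = 0 := h 0
  have e1 : (r - c 1) * (r - c 1) - (c 1 - c 2) * (c 1 - c 0) = 0 := h 1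
  have e2 : (r - c 2) * (r - c 2) - (c 2 - c 0) * (c 2 - c 1) = 0 := h 2
  have a2 : 2 * ((c 0 - c 1) * (r - c 2)) = 0 := by linear_combination e1 - e0
  have a1 : 2 * ((c 0 - c 2) * (r - c 1)) = 0 := by linear_combination e2 - e0
  have b2 : r = c 2 := by
    have := (mul_eq_zero.mp ((mul_eq_zero.mp a2).resolve_left h2)).resolve_left (sub_ne_zero.mpr hc)
    exact sub_eq_zero.mp this
  have b1 : r = c 1 := by
    have := (mul_eq_zero.mp ((mul_eq_zero.mp a1).resolve_left h2)).resolve_left (sub_ne_zero.mpr h02)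
    exact sub_eq_zero.mp this
  exact h12 (b1.symm.trans b2)

/-- the count -/
theorem core {A : Type} [AddCommGroup A] (hx : A → ℚ → Prop) (e : Fin 3 → ℚ) (lam : ℚ)
    (D : Fin 3 → ℤ) (q : ℕ) [Fact q.Prime] (q2 : q ≠ 2) (hlam : lam ≠ 0)
    (dif : ∀ i : Fin 3, e (i + 1) - e (i + 2) = lam ^ 2 * (D i : ℚ))
    (nd : ∀ i, ¬ (q : ℤ) ∣ D i)
    (H1 : ∀ (Q R : A) (x : ℚ), hx Q x → hx R x → Q = R ∨ Q = -R)
    (H2 : ∀ Q : A, Q ≠ 0 → ∃ x, hx Q x)
    (H3 : ∀ (Q R : A) (x₁ x₂ : ℚ), hx Q x₁ → hx R x₂ → x₁ ≠ x₂ →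
      ∃ x₃ x₄ : ℚ, hx (Q + R) x₃ ∧ hx (Q - R) x₄ ∧ ∀ i : Fin 3,
        (x₃ - e i) * (x₄ - e i) * (x₁ - x₂) ^ 2 =
          ((x₁ - e i) * (x₂ - e i) - (e i - e (i + 1)) * (e i - e (i + 2))) ^ 2)
    (H4 : ∀ (Q : A) (n : ℕ), ¬ q ∣ n → n • Q = 0 → ∀ x, hx Q x →
      ∀ i, 0 ≤ padicValRat q ((x - e i) / lam ^ 2))
    (Q : A) (n : ℕ) (hn : ¬ q ∣ n) (hQ : n • Q = 0) : addOrderOf Q ≤ 2 * q + 1 := by
  classical
  have n0 : 0 < n := Nat.pos_of_ne_zero (by rintro rfl; exact hn (dvd_zero _))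
  have hN0 : 0 < addOrderOf Q := addOrderOf_pos_iff.mpr (isOfFinAddOrder_iff_nsmul_eq_zero.mpr ⟨n, n0, hQ⟩)
  -- all multiples are killed by `n`
  have hk : ∀ k : ℕ, n • (k • Q) = 0 := fun k => by
    rw [smul_smul, mul_comm, ← smul_smul, hQ, smul_zero]
  -- integers `c i`
  obtain ⟨c, hc⟩ : ∃ c : Fin 3 → ℤ, ∀ i, e i - e 0 = lam ^ 2 * (c i : ℚ) := by
    refine ⟨![0, -D 2, D 1], ?_⟩
    intro i
    fin_cases i
    · show e 0 - e 0 = lam ^ 2 * ((0 : ℤ) : ℚ)
      simp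
    · show e 1 - e 0 = lam ^ 2 * ((-D 2 : ℤ) : ℚ)
      have := dif 2
      have h : e 0 - e 1 = lam ^ 2 * (D 2 : ℚ) := this
      push_cast
      linear_combination -h
    · show e 2 - e 0 = lam ^ 2 * ((D 1 : ℤ) : ℚ)
      exact dif 1
  have cdif : ∀ i : Fin 3, c (i + 1) - c (i + 2) = D i := by
    intro i
    have h1 := hc (i + 1)
    have h2 := hc (i + 2)
    have h3 := dif i
    have h4 : lam ^ 2 * ((c (i + 1) - c (i + 2) : ℤ) : ℚ) = lam ^ 2 * (D i : ℚ) := by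
      push_cast
      linear_combination h2 - h1 + h3
    have h5 := mul_left_cancel₀ (pow_ne_zero 2 hlam) h4
    exact_mod_cast h5
  have cne : ∀ i : Fin 3, ((c (i + 1) : ℤ) : ZMod q) ≠ ((c (i + 2) : ℤ) : ZMod q) := by
    intro i h
    apply nd i
    rw [← cdif i, ← ZMod.intCast_zmod_eq_zero_iff_dvd]
    push_cast
    rw [h, sub_self]
  have two0 : (2 : ZMod q) ≠ 0 := by
    intro h
    have h' : ((2 : ℕ) : ZMod q) = 0 := by exact_mod_cast h
    rw [ZMod.natCast_eq_zero_iff] at h'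
    exact q2 ((Nat.prime_dvd_prime_iff_eq (Fact.out : q.Prime) Nat.prime_two).mp h')
  -- the residues
  have hres : ∀ R : A, ∃ t : ZMod q, R ≠ 0 → n • R = 0 → ∃ (x : ℚ) (z : ℤ_[q]), hx R x ∧
      (z : ℚ_[q]) = (((x - e 0) / lam ^ 2 : ℚ) : ℚ_[q]) ∧ t = PadicInt.toZMod z := by
    intro R
    by_cases hR : R ≠ 0 ∧ n • R = 0
    · obtain ⟨x, hxR⟩ := H2 R hR.1
      obtain ⟨z, hz⟩ := lift (H4 R n hn hR.2 x hxR 0)
      exact ⟨PadicInt.toZMod z, fun _ _ => ⟨x, z, hxR, hz, rfl⟩⟩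
    · exact ⟨0, fun h1 h2 => absurd ⟨h1, h2⟩ hR⟩
  choose rho hrho using hres
  -- key: equal residues
  have key : ∀ R S : A, R ≠ 0 → S ≠ 0 → n • R = 0 → n • S = 0 → rho R = rho S → R = S ∨ R = -S := by
    intro R S hR hS hnR hnS hRS
    obtain ⟨x, z, hxR, hz, hzr⟩ := hrho R hR hnR
    obtain ⟨x', z', hxS, hz', hzr'⟩ := hrho S hS hnS
    by_cases hxx : x = x'
    · subst hxx
      exact H1 R S x hxR hxS
    · exfalso
      obtain ⟨x₃, x₄, h3, h4, hid⟩ := H3 R S x x' hxR hxS hxx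
      have hn3 : n • (R + S) = 0 := by rw [smul_add, hnR, hnS, add_zero]
      have hn4 : n • (R - S) = 0 := by rw [smul_sub, hnR, hnS, sub_zero]
      apply algmod two0 (rho R) (fun i => ((c i : ℤ) : ZMod q))
      · exact fun h => cne 2 h
      · exact fun h => cne 0 h
      · exact fun h => cne 1 h.symm
      · intro i
        obtain ⟨u, hu⟩ := lift (H4 _ n hn hn3 x₃ h3 i)
        obtain ⟨v, hv⟩ := lift (H4 _ n hn hn4 x₄ h4 i)
        have hl : lam ^ 2 ≠ 0 := pow_ne_zero 2 hlam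
        have hQid : ((x₃ - e i) / lam ^ 2) * ((x₄ - e i) / lam ^ 2) *
            ((x - e 0) / lam ^ 2 - (x' - e 0) / lam ^ 2) ^ 2 =
            (((x - e 0) / lam ^ 2 - (c i : ℚ)) * ((x' - e 0) / lam ^ 2 - (c i : ℚ)) -
              ((c i : ℚ) - (c (i + 1) : ℚ)) * ((c i : ℚ) - (c (i + 2) : ℚ))) ^ 2 := by
          have c0 : (c i : ℚ) = (e i - e 0) / lam ^ 2 := by rw [hc i]; field_simp
          have c1 : (c (i + 1) : ℚ) = (e (i + 1) - e 0) / lam ^ 2 := by rw [hc (i + 1)]; field_simp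
          have c2 : (c (i + 2) : ℚ) = (e (i + 2) - e 0) / lam ^ 2 := by rw [hc (i + 2)]; field_simp
          rw [c0, c1, c2]
          have := hid i
          have e1 : ((x₃ - e i) / lam ^ 2) * ((x₄ - e i) / lam ^ 2) *
            ((x - e 0) / lam ^ 2 - (x' - e 0) / lam ^ 2) ^ 2 =
              ((x₃ - e i) * (x₄ - e i) * (x - x') ^ 2) / lam ^ 8 := by
            field_simp
            ring
          have e2 : (((x - e 0) / lam ^ 2 - (e i - e 0) / lam ^ 2) *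
              ((x' - e 0) / lam ^ 2 - (e i - e 0) / lam ^ 2) -
              ((e i - e 0) / lam ^ 2 - (e (i + 1) - e 0) / lam ^ 2) *
                ((e i - e 0) / lam ^ 2 - (e (i + 2) - e 0) / lam ^ 2)) ^ 2 =
              ((x - e i) * (x' - e i) - (e i - e (i + 1)) * (e i - e (i + 2))) ^ 2 / lam ^ 8 := by
            field_simp
            ring
          rw [e1, e2, this]
        have hQq := congrArg (fun y : ℚ => (y : ℚ_[q])) hQid
        have hZ : u * v * (z - z') ^ 2 =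
            ((z - (c i : ℤ_[q])) * (z' - (c i : ℤ_[q])) -
              ((c i : ℤ_[q]) - (c (i + 1) : ℤ_[q])) * ((c i : ℤ_[q]) - (c (i + 2) : ℤ_[q]))) ^ 2 := by
          apply Subtype.coe_injective
          push_cast
          rw [hu, hv, hz, hz']
          push_cast at hQq ⊢
          exact hQq
        have hF := congrArg (PadicInt.toZMod (p := q)) hZ
        simp only [map_mul, map_pow, map_sub, map_intCast] at hF
        rw [← hzr, ← hzr', ← hRS, sub_self, zero_pow two_ne_zero, mul_zero] at hF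
        exact pow_eq_zero_iff two_ne_zero |>.mp hF.symm
  -- the count
  set N := addOrderOf Q with hN
  have hne : ∀ k ∈ Finset.Ico 1 N, k • Q ≠ 0 := by
    intro k hk' h
    rw [Finset.mem_Ico] at hk'
    have := addOrderOf_dvd_of_nsmul_eq_zero h
    have := Nat.le_of_dvd (by omega) this
    omega
  have hcard : (Finset.Ico 1 N).card ≤ 2 * ((Finset.Ico 1 N).image fun k => rho (k • Q)).card := by
    apply Finset.card_le_mul_card_image
    intro a ha
    obtain ⟨k, hk1, rfl⟩ := Finset.mem_image.mp ha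
    have hsub : (Finset.Ico 1 N).filter (fun l => rho (l • Q) = rho (k • Q)) ⊆ {k, N - k} := by
      intro l hl
      rw [Finset.mem_filter] at hl
      obtain ⟨hl1, hl2⟩ := hl
      have h1 := Finset.mem_Ico.mp hl1
      have h2 := Finset.mem_Ico.mp hk1
      rcases key _ _ (hne l hl1) (hne k hk1) (hk l) (hk k) hl2 with h | h
      · have h3 : l = k := by
          rw [← Nat.mod_eq_of_lt h1.2, ← Nat.mod_eq_of_lt h2.2]
          exact nsmul_inj_mod.mp h
        simp [h3]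
      · have h3 : (l + k) • Q = 0 := by rw [add_smul, h, neg_add_cancel]
        have h4 := addOrderOf_dvd_of_nsmul_eq_zero h3
        rw [← hN] at h4
        obtain ⟨m, hm⟩ := h4
        have h5 : m = 1 := by
          have m1 : m ≠ 0 := by rintro rfl; omega
          have m2 : m < 2 := by
            by_contra hm2
            rw [not_lt] at hm2
            have : N * 2 ≤ N * m := Nat.mul_le_mul_left N hm2
            omega
          omega
        rw [h5, mul_one] at hm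
        simp only [Finset.mem_insert, Finset.mem_singleton]
        right
        omega
    exact (Finset.card_le_card hsub).trans Finset.card_le_two
  have himg : ((Finset.Ico 1 N).image fun k => rho (k • Q)).card ≤ q := by
    have := Finset.card_le_univ ((Finset.Ico 1 N).image fun k => rho (k • Q))
    rwa [ZMod.card] at this
  rw [Nat.card_Ico] at hcard
  omega

/-- the group of points with its classical structure -/
theorem bridge (idn : IdnStmt) (dup : DupStmt) {F : Type} [Field F] (W : WeierstrassCurve F)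
    (e : Fin 3 → F) (hr : Rt3 W e) :
    ∃ (A : Type) (_ : AddCommGroup A) (phi : W.toAffine.Point → A) (hx : A → F → Prop),
      (∀ (Q R : A) (x : F), hx Q x → hx R x → Q = R ∨ Q = -R) ∧
      (∀ Q : A, Q ≠ 0 → ∃ x, hx Q x) ∧
      (∀ (Q R : A) (x₁ x₂ : F), hx Q x₁ → hx R x₂ → x₁ ≠ x₂ →
        ∃ x₃ x₄ : F, hx (Q + R) x₃ ∧ hx (Q - R) x₄ ∧ ∀ i : Fin 3,
          (x₃ - e i) * (x₄ - e i) * (x₁ - x₂) ^ 2 =
            ((x₁ - e i) * (x₂ - e i) - (e i - e (i + 1)) * (e i - e (i + 2))) ^ 2) ∧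
      (∀ (n : ℕ) (Q : W.toAffine.Point), Kil n Q ↔ n • phi Q = 0) ∧
      (∀ (Q : W.toAffine.Point) (x : F), HasX Q x ↔ hx (phi Q) x) ∧
      (∀ a : A, ∃ Q, phi Q = a) := by
  classical
  obtain ⟨_, _, _, d4, _, d6, _, _⟩ := dup F W e hr
  exact ⟨W.toAffine.Point, inferInstance, id, fun Q x => HasX Q x, d4, d6, idn F W e hr,
    fun n Q => Iff.rfl, fun Q x => Iff.rfl, fun a => ⟨a, rfl⟩⟩

theorem tors_iff {F : Type} [Field F] (W : WeierstrassCurve F) :
    Tors W ↔ ∀ Q : W.toAffine.Point, ∃ n : ℕ, 0 < n ∧ Kil n Q := Iff.rfl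

theorem expo_iff {F : Type} [Field F] (W : WeierstrassCurve F) (n : ℕ) :
    Expo W n ↔ ∀ Q : W.toAffine.Point, Kil n Q := Iff.rfl

/-- three different roots from `Scl` -/
theorem rt3 {W : WeierstrassCurve ℚ} {ε : Fin 3 → ℚ} {lam : ℚ} {D : Fin 3 → ℤ}
    (h : Scl W ε lam D) : Rt3 W ε := by
  have key : ∀ i : Fin 3, ε (i + 1) ≠ ε (i + 2) := by
    intro i hi
    have h1 := h.dif i
    rw [hi, sub_self] at h1
    have h2 : (D i : ℚ) ≠ 0 := by exact_mod_cast h.D0 i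
    exact mul_ne_zero (pow_ne_zero 2 h.lam0) h2 h1.symm
  refine ⟨two_ne_zero, h.rts, ?_⟩
  have k0 : ε 1 ≠ ε 2 := key 0
  have k1 : ε 2 ≠ ε 0 := key 1
  have k2 : ε 0 ≠ ε 1 := key 2
  intro i j hij
  fin_cases i <;> fin_cases j
  · exact absurd rfl hij
  · exact k2
  · exact k1.symm
  · exact k2.symm
  · exact absurd rfl hij
  · exact k0
  · exact k1
  · exact k0.symm
  · exact absurd rfl hij

/-- E_TBD -/
theorem tbd (eon : EonStmt) (idn : IdnStmt) (dup : DupStmt) : TbdStmt := by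
  intro q₁ q₂ p₁ p₂ n₁ n₂ hne
  refine ⟨(2 * q₁ + 1).factorial * (2 * q₂ + 1).factorial,
    Nat.mul_pos (Nat.factorial_pos _) (Nat.factorial_pos _), ?_⟩
  intro W ε lam D hS hD hT
  rw [tors_iff] at hT
  rw [expo_iff]
  intro Q
  have : Fact q₁.Prime := ⟨p₁⟩
  have : Fact q₂.Prime := ⟨p₂⟩
  obtain ⟨A, _, phi, hx, H1, H2, H3, HK, HX, Hs⟩ := bridge idn dup W ε (rt3 hS)
  obtain ⟨n, hn0, hn⟩ := hT Q
  rw [HK] at hn ⊢
  obtain ⟨a, n', hn', hnn⟩ := Nat.exists_eq_pow_mul_and_not_dvd hn0.ne' q₁ p₁.ne_one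
  have C1 : ∀ (R : A) (m : ℕ), ¬ q₁ ∣ m → m • R = 0 →
      (2 * q₁ + 1).factorial • R = 0 := by
    intro R m hm hR
    have h0 : 0 < addOrderOf R := addOrderOf_pos_iff.mpr (isOfFinAddOrder_iff_nsmul_eq_zero.mpr
      ⟨m, Nat.pos_of_ne_zero (by rintro rfl; exact hm (dvd_zero _)), hR⟩)
    have := core hx ε lam D q₁ n₁ hS.lam0 hS.dif (fun i => (hD i).1) H1 H2 H3
      (fun Q n h1 h2 x hxx i => by
        obtain ⟨P, rfl⟩ := Hs Q
        exact eon q₁ W ε lam D n₁ hS (fun i => (hD i).1) P n h1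
          ((HK n P).mpr h2) x ((HX P x).mpr hxx) i) R m hm hR
    exact addOrderOf_dvd_iff_nsmul_eq_zero.mp (Nat.dvd_factorial h0 this)
  have C2 : ∀ (R : A) (m : ℕ), ¬ q₂ ∣ m → m • R = 0 →
      (2 * q₂ + 1).factorial • R = 0 := by
    intro R m hm hR
    have h0 : 0 < addOrderOf R := addOrderOf_pos_iff.mpr (isOfFinAddOrder_iff_nsmul_eq_zero.mpr
      ⟨m, Nat.pos_of_ne_zero (by rintro rfl; exact hm (dvd_zero _)), hR⟩)
    have := core hx ε lam D q₂ n₂ hS.lam0 hS.dif (fun i => (hD i).2) H1 H2 H3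
      (fun Q n h1 h2 x hxx i => by
        obtain ⟨P, rfl⟩ := Hs Q
        exact eon q₂ W ε lam D n₂ hS (fun i => (hD i).2) P n h1
          ((HK n P).mpr h2) x ((HX P x).mpr hxx) i) R m hm hR
    exact addOrderOf_dvd_iff_nsmul_eq_zero.mp (Nat.dvd_factorial h0 this)
  generalize phi Q = R at hn ⊢
  have e1 : (2 * q₁ + 1).factorial • (q₁ ^ a • R) = 0 := by
    apply C1 _ n' hn'
    rw [smul_smul, mul_comm, ← hnn, hn]
  have e2 : (2 * q₂ + 1).factorial • (n' • R) = 0 := by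
    apply C2 _ (q₁ ^ a)
    · intro h
      exact hne ((Nat.prime_dvd_prime_iff_eq p₂ p₁).mp (p₂.dvd_of_dvd_pow h)).symm
    · rw [smul_smul, ← hnn, hn]
  rw [smul_smul] at e1 e2
  have d1 := addOrderOf_dvd_iff_nsmul_eq_zero.mpr e1
  have d2 := addOrderOf_dvd_iff_nsmul_eq_zero.mpr e2
  have hco : Nat.gcd (q₁ ^ a) n' = 1 :=
    Nat.Coprime.pow_left a ((Nat.Prime.coprime_iff_not_dvd p₁).mpr hn')
  rw [← addOrderOf_dvd_iff_nsmul_eq_zero]
  have d1' : addOrderOf R ∣ ((2 * q₁ + 1).factorial * (2 * q₂ + 1).factorial) * q₁ ^ a :=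
    d1.trans ⟨(2 * q₂ + 1).factorial, by ring⟩
  have d2' : addOrderOf R ∣ ((2 * q₁ + 1).factorial * (2 * q₂ + 1).factorial) * n' :=
    d2.trans ⟨(2 * q₁ + 1).factorial, by ring⟩
  have := Nat.dvd_gcd d1' d2'
  rwa [Nat.gcd_mul_left, hco, mul_one] at this

end

end Pool.Agent.GT.OF.H29
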